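import Pool.Agent.Helper64.SPX.Spec

/-!
# Basic facts on Fourier transforms
-/

set_option autoImplicit false

open MeasureTheory Filter Topology Set
open scoped InnerProductSpace ENNReal

namespace Pool.Agent.Helper47.SPX

open Pool.Agent.Helper64.SPX

variable {ι : Type} [Fintype ι]

theorem norm_ee (θ : ℝ) : ‖ee θ‖ = 1 := by
  unfold ee
  rw [show (2 * Real.pi * θ * Complex.I : ℂ) = ((2 * Real.pi * θ : ℝ) : ℂ) * Complex.I by
    push_cast; ring]
  exact Complex.norm_exp_ofReal_mul_I _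

theorem ee_add (a b : ℝ) : ee (a + b) = ee a * ee b := by
  unfold ee
  rw [← Complex.exp_add]
  congr 1
  push_cast
  ring

theorem ee_zero : ee 0 = 1 := by simp [ee]

theorem ee_neg (a : ℝ) : ee (-a) = (starRingEnd ℂ) (ee a) := by
  unfold ee
  rw [← Complex.exp_conj]
  congr 1
  simp only [map_mul, Complex.conj_ofReal, Complex.conj_I, map_ofNat]
  push_cast
  ring

theorem continuous_ee : Continuous ee := by
  unfold ee
  fun_prop

theorem norm_ee_sub_one (θ : ℝ) : ‖ee θ - 1‖ ≤ 2 * Real.pi * |θ| := by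
  have h := Real.norm_exp_I_mul_ofReal_sub_one_le (x := 2 * Real.pi * θ)
  have e1 : ee θ = Complex.exp (Complex.I * ((2 * Real.pi * θ : ℝ) : ℂ)) := by
    unfold ee
    congr 1
    push_cast
    ring
  rw [e1]
  refine h.trans (le_of_eq ?_)
  rw [Real.norm_eq_abs, abs_mul, abs_of_pos (by positivity)]

theorem bdd_integrable {H : E ι → ℂ} (hH : Bdd H) : Integrable H := by
  obtain ⟨hm, ⟨C, hC⟩, ⟨r, hr⟩⟩ := hH
  have h : IntegrableOn H (Metric.closedBall (0 : E ι) r) :=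
    Measure.integrableOn_of_bounded (M := C) (Metric.isCompact_of_isClosed_isBounded
      Metric.isClosed_closedBall Metric.isBounded_closedBall).measure_lt_top.ne
      hm.aestronglyMeasurable (ae_of_all _ hC)
  refine (integrableOn_iff_integrable_of_support_subset ?_).1 h
  intro x hx
  by_contra hx2
  apply hx
  apply hr
  simp only [Metric.mem_closedBall, dist_zero_right, not_le] at hx2
  exact hx2.le

theorem norm_ft_le {H : E ι → ℂ} (z : E ι) : ‖ft H z‖ ≤ ∫ x, ‖H x‖ := by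
  refine (norm_integral_le_integral_norm _).trans (le_of_eq ?_)
  refine integral_congr_ae (ae_of_all _ fun x => ?_)
  simp only [norm_mul, norm_ee, mul_one]

theorem integrable_mul_ee {H : E ι → ℂ} (hH : Integrable H) (z : E ι) :
    Integrable (fun x => H x * ee (-⟪z, x⟫_ℝ)) := by
  refine Integrable.mono hH (hH.aestronglyMeasurable.mul ?_) (ae_of_all _ fun x => ?_)
  · exact (continuous_ee.comp (by fun_prop)).aestronglyMeasurable
  · simp only [norm_mul, norm_ee, mul_one, le_refl]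

theorem ft_lipschitz {H : E ι → ℂ} (hH : Bdd H) :
    ∃ L, 0 ≤ L ∧ ∀ z z', ‖ft H z - ft H z'‖ ≤ L * ‖z - z'‖ := by
  have hi := bdd_integrable hH
  obtain ⟨hm, ⟨C, hC⟩, ⟨r, hr⟩⟩ := hH
  refine ⟨2 * Real.pi * |r| * ∫ x, ‖H x‖, by positivity, fun z z' => ?_⟩
  unfold ft
  rw [← integral_sub (integrable_mul_ee hi z) (integrable_mul_ee hi z')]
  refine (norm_integral_le_integral_norm _).trans ?_
  rw [show 2 * Real.pi * |r| * (∫ x, ‖H x‖) * ‖z - z'‖ =
    ∫ x, 2 * Real.pi * |r| * ‖z - z'‖ * ‖H x‖ by rw [integral_const_mul]; ring]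
  refine integral_mono_ae ((integrable_mul_ee hi z).sub (integrable_mul_ee hi z')).norm
    (hi.norm.const_mul _) (ae_of_all _ fun x => ?_)
  simp only
  by_cases hx : r ≤ ‖x‖
  · rw [hr x hx]
    simp
  · rw [← mul_sub, norm_mul]
    have e : ee (-⟪z, x⟫_ℝ) - ee (-⟪z', x⟫_ℝ) = ee (-⟪z', x⟫_ℝ) * (ee (-⟪z - z', x⟫_ℝ) - 1) := by
      rw [mul_sub, ← ee_add, mul_one]
      congr 2
      rw [inner_sub_left]
      ring
    rw [e, norm_mul, norm_ee, one_mul]
    have h1 := norm_ee_sub_one (-⟪z - z', x⟫_ℝ)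
    rw [abs_neg] at h1
    have h2 := abs_real_inner_le_norm (z - z') x
    have h3 : ‖x‖ ≤ |r| := (not_le.1 hx).le.trans (le_abs_self r)
    have h4 : |⟪z - z', x⟫_ℝ| ≤ ‖z - z'‖ * |r| :=
      h2.trans (mul_le_mul_of_nonneg_left h3 (norm_nonneg _))
    have h5 : ‖ee (-⟪z - z', x⟫_ℝ) - 1‖ ≤ 2 * Real.pi * (‖z - z'‖ * |r|) :=
      h1.trans (mul_le_mul_of_nonneg_left h4 (by positivity))
    calc ‖H x‖ * ‖ee (-⟪z - z', x⟫_ℝ) - 1‖ ≤ ‖H x‖ * (2 * Real.pi * (‖z - z'‖ * |r|)) :=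
          mul_le_mul_of_nonneg_left h5 (norm_nonneg _)
      _ = 2 * Real.pi * |r| * ‖z - z'‖ * ‖H x‖ := by ring

theorem sq_lipschitz {H : E ι → ℂ} (hH : Bdd H) :
    ∃ L, 0 ≤ L ∧ ∀ z z', |‖ft H z‖ ^ 2 - ‖ft H z'‖ ^ 2| ≤ L * ‖z - z'‖ := by
  obtain ⟨L, hL, h⟩ := ft_lipschitz hH
  set B := ∫ x, ‖H x‖
  have hB : 0 ≤ B := by positivity
  refine ⟨2 * B * L, by positivity, fun z z' => ?_⟩
  have h1 : ‖ft H z‖ ≤ B := norm_ft_le z
  have h2 : ‖ft H z'‖ ≤ B := norm_ft_le z'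
  have h3 : |‖ft H z‖ - ‖ft H z'‖| ≤ L * ‖z - z'‖ := (abs_norm_sub_norm_le _ _).trans (h z z')
  rw [show ‖ft H z‖ ^ 2 - ‖ft H z'‖ ^ 2 = (‖ft H z‖ + ‖ft H z'‖) * (‖ft H z‖ - ‖ft H z'‖) by ring,
    abs_mul, abs_of_nonneg (by positivity)]
  calc (‖ft H z‖ + ‖ft H z'‖) * |‖ft H z‖ - ‖ft H z'‖| ≤ (B + B) * (L * ‖z - z'‖) :=
        mul_le_mul (add_le_add h1 h2) h3 (abs_nonneg _) (by positivity)
    _ = 2 * B * L * ‖z - z'‖ := by ring

/-- the number of points of a separated set in a ball is bounded -/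
theorem card_bound {r : ℝ} (hr : 0 < r) (ρ : ℝ) : ∃ N : ℕ, ∀ (z : E ι) (S : Finset (E ι)),
    Sep r (S : Set (E ι)) → (∀ a ∈ S, ‖z - a‖ ≤ ρ) → S.card ≤ N := by
  classical
  obtain ⟨t, ht, hc⟩ := Metric.totallyBounded_iff.1
    (isCompact_closedBall (0 : E ι) ρ).totallyBounded (r / 2) (by positivity)
  refine ⟨ht.toFinset.card, fun z S hS hz => ?_⟩
  have h1 : ∀ a ∈ S, ∃ y ∈ t, ‖z - a - y‖ < r / 2 := by
    intro a ha
    have : z - a ∈ Metric.closedBall (0 : E ι) ρ := by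
      rw [mem_closedBall_zero_iff]
      exact hz a ha
    obtain ⟨y, hy, h⟩ := Set.mem_iUnion₂.1 (hc this)
    exact ⟨y, hy, by rwa [Metric.mem_ball, dist_eq_norm] at h⟩
  choose! f hf1 hf2 using h1
  refine Finset.card_le_card_of_injOn f (fun a ha => ?_) (fun a ha b hb hab => ?_)
  · simpa using hf1 a ha
  · by_contra hne
    have h2 := hS a ha b hb hne
    have h3 : ‖a - b‖ ≤ ‖z - a - f a‖ + ‖z - b - f b‖ := by
      rw [show a - b = (z - b - f b) - (z - a - f a) by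
        rw [hab]; abel]
      rw [add_comm]
      exact norm_sub_le _ _
    have h4 := hf2 a ha
    have h5 := hf2 b hb
    linarith

end Pool.Agent.Helper47.SPX
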