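import Pool.Agent.Helper47.SPX.Ft

/-!
# PER: the limit is periodic
-/

set_option autoImplicit false

open MeasureTheory Filter Topology Set
open scoped InnerProductSpace ENNReal

namespace Pool.Agent.Helper47.SPX.PER

open Pool.Agent.Helper64.SPX Pool.Agent.Helper47.SPX

variable {ι : Type} [Fintype ι]

theorem unif (hA : S_AMAL) (hC : S_CONT) {H : E ι → ℂ} (hH : Bdd H) {Λ : Set (E ι)} {r : ℝ}
    (hr : 0 < r) (hΛ : Sep r Λ) {ε : ℝ} (hε : 0 < ε) :
    ∃ δ > 0, ∀ z z' : E ι, ‖z - z'‖ ≤ δ → |G Λ H z - G Λ H z'| ≤ ε := by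
  classical
  obtain ⟨ρ, hρ⟩ := (hA ι H hH r hr).2 (ε / 4) (by positivity)
  obtain ⟨N, hN⟩ := card_bound (ι := ι) hr (ρ + 1)
  obtain ⟨L, hL, hl⟩ := sq_lipschitz hH
  obtain ⟨hs, -⟩ := hC ι H hH r hr Λ hΛ
  refine ⟨min 1 (ε / (2 * (N * L + 1))), by positivity, fun z z' hz => ?_⟩
  have hz1 : ‖z - z'‖ ≤ 1 := hz.trans (min_le_left _ _)
  have hz2 : ‖z - z'‖ ≤ ε / (2 * (N * L + 1)) := hz.trans (min_le_right _ _)
  have key : ∀ T : Finset Λ, |∑ a ∈ T, (‖ft H (z - a)‖ ^ 2 - ‖ft H (z' - a)‖ ^ 2)| ≤ ε := by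
    intro T
    set T1 := T.filter fun a : Λ => ‖z - a‖ ≤ ρ + 1
    set T2 := T.filter fun a : Λ => ¬ ‖z - a‖ ≤ ρ + 1
    have hsep : ∀ T' : Finset Λ, Sep r ((T'.map (Function.Embedding.subtype _) : Finset (E ι)) :
        Set (E ι)) := by
      intro T' a ha b hb hab
      simp only [Finset.coe_map, Function.Embedding.subtype_apply, Set.mem_image, Finset.mem_coe,
        Subtype.exists, exists_and_right, exists_eq_right] at ha hb
      exact hΛ a ha.choose b hb.choose hab
    have h1 : (T1.card : ℝ) ≤ N := by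
      have := hN z (T1.map (Function.Embedding.subtype _)) (hsep T1) (by
        intro a ha
        simp only [Finset.mem_map, Function.Embedding.subtype_apply] at ha
        obtain ⟨b, hb, rfl⟩ := ha
        exact (Finset.mem_filter.1 hb).2)
      rw [Finset.card_map] at this
      exact_mod_cast this
    have h2 : ∑ a ∈ T2, ‖ft H (z - a)‖ ^ 2 ≤ ε / 4 := by
      have := hρ (T2.map (Function.Embedding.subtype _)) (hsep T2) z (by
        intro a ha
        simp only [Finset.mem_map, Function.Embedding.subtype_apply] at ha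
        obtain ⟨b, hb, rfl⟩ := ha
        have := (Finset.mem_filter.1 hb).2
        linarith)
      rwa [Finset.sum_map] at this
    have h3 : ∑ a ∈ T2, ‖ft H (z' - a)‖ ^ 2 ≤ ε / 4 := by
      have := hρ (T2.map (Function.Embedding.subtype _)) (hsep T2) z' (by
        intro a ha
        simp only [Finset.mem_map, Function.Embedding.subtype_apply] at ha
        obtain ⟨b, hb, rfl⟩ := ha
        have h4 := (Finset.mem_filter.1 hb).2
        have h5 : ‖z - b‖ ≤ ‖z - z'‖ + ‖z' - b‖ := by
          rw [show z - (b : E ι) = (z - z') + (z' - b) by abel]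
          exact norm_add_le _ _
        linarith)
      rwa [Finset.sum_map] at this
    rw [← Finset.sum_filter_add_sum_filter_not T (fun a : Λ => ‖z - a‖ ≤ ρ + 1)]
    refine (abs_add_le _ _).trans ?_
    have h4 : |∑ a ∈ T1, (‖ft H (z - a)‖ ^ 2 - ‖ft H (z' - a)‖ ^ 2)| ≤ ε / 2 := by
      refine (Finset.abs_sum_le_sum_abs _ _).trans ?_
      calc ∑ a ∈ T1, |‖ft H (z - a)‖ ^ 2 - ‖ft H (z' - a)‖ ^ 2|
          ≤ ∑ a ∈ T1, L * ‖z - z'‖ := by
            refine Finset.sum_le_sum fun a _ => ?_
            refine (hl _ _).trans (le_of_eq ?_)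
            congr 2
            abel
        _ = T1.card * (L * ‖z - z'‖) := by rw [Finset.sum_const, nsmul_eq_mul]
        _ ≤ N * (L * (ε / (2 * (N * L + 1)))) := by gcongr
        _ = (N * L) / (N * L + 1) * (ε / 2) := by
            field_simp
        _ ≤ 1 * (ε / 2) := by
            gcongr
            rw [div_le_one (by positivity)]
            linarith
        _ = ε / 2 := one_mul _
    have h5 : |∑ a ∈ T2, (‖ft H (z - a)‖ ^ 2 - ‖ft H (z' - a)‖ ^ 2)| ≤ ε / 2 := by
      rw [Finset.sum_sub_distrib]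
      have p1 : 0 ≤ ∑ a ∈ T2, ‖ft H (z - a)‖ ^ 2 := by positivity
      have p2 : 0 ≤ ∑ a ∈ T2, ‖ft H (z' - a)‖ ^ 2 := by positivity
      rw [abs_le]
      constructor <;> linarith
    linarith
  have hsum : HasSum (fun a : Λ => ‖ft H (z - a)‖ ^ 2 - ‖ft H (z' - a)‖ ^ 2)
      (G Λ H z - G Λ H z') := (hs z).hasSum.sub (hs z').hasSum
  exact le_of_tendsto' (hsum.abs) fun T => key T

theorem main (hA : S_AMAL) (hC : S_CONT) : S_PER := by
  intro ι _ Λ Λ' r z H v hr hΛ hΛ' hH hlim hint u
  have hcont : Continuous (G Λ H) := (hC ι H hH r hr Λ hΛ).2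
  have h1 : Tendsto (fun k => G Λ H (z k + u + v) - G Λ H (z k + u)) (hyperfilter ℕ : Filter ℕ)
      (𝓝 (G Λ' H (u + v) - G Λ' H u)) := by
    have := (hlim (u + v)).sub (hlim u)
    simpa only [add_assoc] using this
  have h2 : Tendsto (fun k => G Λ H (z k + u + v) - G Λ H (z k + u)) atTop (𝓝 0) := by
    rw [Metric.tendsto_atTop]
    intro ε hε
    obtain ⟨δ, hδ, hu⟩ := unif hA hC hH hr hΛ (ε := ε / 4) (by positivity)
    set D : ℕ → E ι → ℝ := fun k w => G Λ H (z k + w + v) - G Λ H (z k + w)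
    set c : ℝ := (volume (Metric.closedBall u δ)).toReal with hc
    have hcpos : 0 < c := by
      rw [hc]
      refine ENNReal.toReal_pos (Metric.measure_closedBall_pos volume u hδ).ne' ?_
      exact (isCompact_closedBall u δ).measure_lt_top.ne
    have h3 := hint (‖u‖ + δ)
    rw [Metric.tendsto_atTop] at h3
    obtain ⟨K, hK⟩ := h3 ((ε / 2) ^ 2 * c) (by positivity)
    refine ⟨K, fun k hk => ?_⟩
    have h4 := hK k hk
    rw [Real.dist_eq, sub_zero, abs_of_nonneg (by positivity)] at h4
    rw [Real.dist_eq, sub_zero]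
    by_contra hcon
    have hcon' : ε ≤ |D k u| := not_lt.1 hcon
    have h5 : ∀ w ∈ Metric.closedBall u δ, (ε / 2) ^ 2 ≤ (D k w) ^ 2 := by
      intro w hw
      rw [Metric.mem_closedBall, dist_eq_norm] at hw
      have e1 : |G Λ H (z k + w + v) - G Λ H (z k + u + v)| ≤ ε / 4 := hu _ _ (by
        rw [show z k + w + v - (z k + u + v) = w - u by abel]; exact hw)
      have e2 : |G Λ H (z k + w) - G Λ H (z k + u)| ≤ ε / 4 := hu _ _ (by
        rw [show z k + w - (z k + u) = w - u by abel]; exact hw)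
      have e3 : |D k u| ≤ |D k w| + ε / 2 := by
        have : D k u = D k w - (G Λ H (z k + w + v) - G Λ H (z k + u + v)) +
          (G Λ H (z k + w) - G Λ H (z k + u)) := by simp only [D]; ring
        rw [this]
        refine (abs_add_le _ _).trans ?_
        have := abs_sub (D k w) (G Λ H (z k + w + v) - G Λ H (z k + u + v))
        linarith
      have e4 : ε / 2 ≤ |D k w| := by linarith
      rw [← sq_abs (D k w)]
      exact pow_le_pow_left₀ (by positivity) e4 2
    have hDc : Continuous fun w => (D k w) ^ 2 := by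
      simp only [D]
      fun_prop
    have hsub : Metric.closedBall u δ ⊆ Metric.closedBall (0 : E ι) (‖u‖ + δ) := by
      intro w hw
      rw [Metric.mem_closedBall, dist_eq_norm] at hw
      rw [mem_closedBall_zero_iff]
      calc ‖w‖ = ‖(w - u) + u‖ := by rw [sub_add_cancel]
        _ ≤ ‖w - u‖ + ‖u‖ := norm_add_le _ _
        _ ≤ ‖u‖ + δ := by linarith
    have hI : IntegrableOn (fun w => (D k w) ^ 2) (Metric.closedBall (0 : E ι) (‖u‖ + δ)) :=
      hDc.continuousOn.integrableOn_compact (isCompact_closedBall _ _)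
    have h6 : (ε / 2) ^ 2 * c ≤ ∫ w in Metric.closedBall (0 : E ι) (‖u‖ + δ), (D k w) ^ 2 := by
      calc (ε / 2) ^ 2 * c = ∫ w in Metric.closedBall u δ, (ε / 2) ^ 2 := by
            rw [setIntegral_const, smul_eq_mul, mul_comm]
            rfl
        _ ≤ ∫ w in Metric.closedBall u δ, (D k w) ^ 2 := by
            refine setIntegral_mono_on ?_ (hI.mono_set hsub) measurableSet_closedBall h5
            exact continuous_const.continuousOn.integrableOn_compact (isCompact_closedBall _ _)
        _ ≤ _ := setIntegral_mono_set hI (ae_of_all _ fun w => sq_nonneg _)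
            hsub.eventuallyLE
    linarith
  have h3 := h2.mono_left Nat.hyperfilter_le_atTop
  have h4 := tendsto_nhds_unique h1 h3
  linarith

end Pool.Agent.Helper47.SPX.PER
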