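import Pool.Agent.Helper47.SPX.Planch

/-!
# PL
-/

set_option autoImplicit false

open MeasureTheory Filter Topology Set
open scoped InnerProductSpace ENNReal

namespace Pool.Agent.Helper47.SPX.PL

open Pool.Agent.Helper64.SPX Pool.Agent.Helper47.SPX

variable {ι : Type} [Fintype ι]

theorem bdd_normal {H : E ι → ℂ} (hH : Bdd H) : ∃ C r : ℝ, 0 ≤ C ∧ 0 < r ∧ (∀ x, ‖H x‖ ≤ C) ∧
    ∀ x, r ≤ ‖x‖ → H x = 0 := by
  obtain ⟨hm, ⟨C, hC⟩, ⟨r, hr⟩⟩ := hH
  refine ⟨|C|, max r 1, abs_nonneg _, by positivity, fun x => (hC x).trans (le_abs_self _),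
    fun x hx => hr x ((le_max_left _ _).trans hx)⟩

/-- the integrand of the double integral -/
theorem integrable_double {H : E ι → ℂ} (hH : Bdd H) (z : E ι) :
    Integrable (fun p : E ι × E ι => H (p.2 + p.1) * (starRingEnd ℂ) (H p.2) * ee (-⟪z, p.1⟫_ℝ))
      ((volume : Measure (E ι)).prod volume) := by
  have hm := hH.1
  obtain ⟨C, r, hC0, hr0, hC, hr⟩ := bdd_normal hH
  set F : E ι × E ι → ℂ :=
    fun p => H (p.2 + p.1) * (starRingEnd ℂ) (H p.2) * ee (-⟪z, p.1⟫_ℝ) with hF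
  set K : Set (E ι × E ι) := Metric.closedBall (0 : E ι) (2 * r) ×ˢ Metric.closedBall (0 : E ι) r
  have hFm : Measurable F := by
    refine ((hm.comp (by fun_prop)).mul ?_).mul ?_
    · exact Complex.continuous_conj.measurable.comp (hm.comp measurable_snd)
    · exact (continuous_ee.comp (by fun_prop)).measurable
  have hK : ((volume : Measure (E ι)).prod (volume : Measure (E ι))) K ≠ ⊤ := by
    rw [Measure.prod_prod]
    exact ENNReal.mul_ne_top (isCompact_closedBall _ _).measure_lt_top.ne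
      (isCompact_closedBall _ _).measure_lt_top.ne
  have h : IntegrableOn F K ((volume : Measure (E ι)).prod volume) :=
    Measure.integrableOn_of_bounded (M := C * C) hK hFm.aestronglyMeasurable
      (ae_of_all _ fun p => by
        simp only [hF, norm_mul, norm_ee, mul_one, RCLike.norm_conj]
        exact mul_le_mul (hC _) (hC _) (norm_nonneg _) hC0)
  refine (integrableOn_iff_integrable_of_support_subset ?_).1 h
  intro p hp
  have h2 : ‖p.2‖ ≤ r := by
    by_contra hc
    apply hp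
    simp only [hF, hr p.2 (not_le.1 hc).le, map_zero, mul_zero, zero_mul]
  have h1 : ‖p.2 + p.1‖ ≤ r := by
    by_contra hc
    apply hp
    simp only [hF, hr (p.2 + p.1) (not_le.1 hc).le, zero_mul]
  refine ⟨?_, ?_⟩
  · rw [mem_closedBall_zero_iff]
    calc ‖p.1‖ = ‖(p.2 + p.1) - p.2‖ := by rw [add_sub_cancel_left]
      _ ≤ ‖p.2 + p.1‖ + ‖p.2‖ := norm_sub_le _ _
      _ ≤ 2 * r := by linarith
  · rwa [mem_closedBall_zero_iff]

theorem aut_bdd {H : E ι → ℂ} (hH : Bdd H) : Bdd (aut H) := by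
  have hm := hH.1
  have hi := bdd_integrable hH
  obtain ⟨C, r, hC0, hr0, hC, hr⟩ := bdd_normal hH
  refine ⟨?_, ⟨C * ∫ x, ‖H x‖, fun t => ?_⟩, ⟨2 * r, fun t ht => ?_⟩⟩
  · unfold aut
    refine StronglyMeasurable.measurable ?_
    refine MeasureTheory.StronglyMeasurable.integral_prod_right' (f := fun p : E ι × E ι =>
      H (p.2 + p.1) * (starRingEnd ℂ) (H p.2)) ?_
    refine Measurable.stronglyMeasurable ?_
    exact (hm.comp (by fun_prop)).mul
      (Complex.continuous_conj.measurable.comp (hm.comp measurable_snd))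
  · unfold aut
    refine (norm_integral_le_integral_norm _).trans ?_
    rw [← integral_const_mul]
    refine integral_mono_of_nonneg (ae_of_all _ fun x => norm_nonneg _) (hi.norm.const_mul _)
      (ae_of_all _ fun x => ?_)
    simp only [norm_mul, RCLike.norm_conj]
    exact mul_le_mul_of_nonneg_right (hC _) (norm_nonneg _)
  · unfold aut
    rw [integral_eq_zero_of_ae (ae_of_all _ fun x => ?_)]
    simp only [Pi.zero_apply]
    by_cases hx : r ≤ ‖x‖
    · rw [hr x hx, map_zero, mul_zero]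
    · rw [hr (x + t) ?_, zero_mul]
      have : ‖t‖ ≤ ‖x + t‖ + ‖x‖ := by
        calc ‖t‖ = ‖(x + t) - x‖ := by rw [add_sub_cancel_left]
          _ ≤ _ := norm_sub_le _ _
      linarith [not_le.1 hx]

theorem ft_aut {H : E ι → ℂ} (hH : Bdd H) (z : E ι) :
    ft (aut H) z = ((‖ft H z‖ ^ 2 : ℝ) : ℂ) := by
  have h1 : ft (aut H) z = ∫ t, ∫ x, H (x + t) * (starRingEnd ℂ) (H x) * ee (-⟪z, t⟫_ℝ) := by
    unfold ft aut
    refine integral_congr_ae (ae_of_all _ fun t => ?_)
    simp only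
    rw [← integral_mul_const]
  rw [h1, integral_integral_swap (integrable_double hH z)]
  have h2 : ∀ x : E ι, ∫ t, H (x + t) * (starRingEnd ℂ) (H x) * ee (-⟪z, t⟫_ℝ) =
      ft H z * ((starRingEnd ℂ) (H x) * ee ⟪z, x⟫_ℝ) := by
    intro x
    have e := integral_add_left_eq_self (μ := (volume : Measure (E ι)))
      (fun t => H t * (starRingEnd ℂ) (H x) * ee (-⟪z, t - x⟫_ℝ)) x
    simp only [add_sub_cancel_left] at e
    rw [e]
    unfold ft
    rw [← integral_mul_const]
    refine integral_congr_ae (ae_of_all _ fun t => ?_)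
    simp only
    rw [inner_sub_right, neg_sub, sub_eq_add_neg, ee_add]
    ring
  simp only [h2]
  rw [integral_const_mul]
  have h3 : ∫ x, (starRingEnd ℂ) (H x) * ee ⟪z, x⟫_ℝ = (starRingEnd ℂ) (ft H z) := by
    unfold ft
    rw [← integral_conj]
    refine integral_congr_ae (ae_of_all _ fun x => ?_)
    simp only [map_mul]
    rw [← ee_neg, neg_neg]
  rw [h3, Complex.mul_conj, Complex.normSq_eq_norm_sq]

theorem ft_mul_ee (u : E ι → ℂ) (a z : E ι) : ft (fun τ => u τ * ee ⟪a, τ⟫_ℝ) z = ft u (z - a) := by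
  unfold ft
  refine integral_congr_ae (ae_of_all _ fun x => ?_)
  simp only
  rw [mul_assoc, ← ee_add]
  congr 2
  rw [inner_sub_left]
  ring

theorem bdd_mul {u : E ι → ℂ} (hu : Bdd u) {c : E ι → ℂ} (hc : Continuous c) {M : ℝ}
    (hM : ∀ x, ‖c x‖ ≤ M) : Bdd (fun x => u x * c x) := by
  obtain ⟨C, r, hC0, hr0, hC, hr⟩ := bdd_normal hu
  refine ⟨hu.1.mul hc.measurable, ⟨C * M, fun x => ?_⟩, ⟨r, fun x hx => ?_⟩⟩
  · rw [norm_mul]
    exact mul_le_mul (hC x) (hM x) (norm_nonneg _) hC0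
  · simp only [hr x hx, zero_mul]

theorem continuous_P (S : Finset (E ι)) : Continuous (P S) := by
  unfold P
  exact continuous_finsetSum _ fun a _ => continuous_ee.comp (by fun_prop)

theorem norm_P_le (S : Finset (E ι)) (t : E ι) : ‖P S t‖ ≤ S.card := by
  unfold P
  refine (norm_sum_le _ _).trans ?_
  simp [norm_ee]

theorem ft_P {u : E ι → ℂ} (hu : Bdd u) (S : Finset (E ι)) (z : E ι) :
    ft (fun τ => u τ * P S τ) z = ∑ a ∈ S, ft u (z - a) := by
  have h : ∀ a ∈ S, ft u (z - a) = ft (fun τ => u τ * ee ⟪a, τ⟫_ℝ) z := fun a _ =>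
    (ft_mul_ee u a z).symm
  rw [Finset.sum_congr rfl h]
  unfold ft
  rw [← integral_finsetSum]
  · refine integral_congr_ae (ae_of_all _ fun x => ?_)
    simp only [P]
    rw [Finset.mul_sum, Finset.sum_mul]
  · intro a _
    exact integrable_mul_ee (bdd_integrable (bdd_mul hu (continuous_ee.comp (by fun_prop))
      (fun x => (norm_ee _).le))) z

theorem main : S_PL := by
  intro ι _ H hH S
  have hA := aut_bdd hH
  have hu : Bdd (fun τ => aut H τ * P S τ) := bdd_mul hA (continuous_P S) (norm_P_le S)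
  have hft : ∀ z, ft (fun τ => aut H τ * P S τ) z =
      ((∑ a ∈ S, ‖ft H (z - a)‖ ^ 2 : ℝ) : ℂ) := by
    intro z
    rw [ft_P hA S z, Complex.ofReal_sum]
    exact Finset.sum_congr rfl fun a _ => ft_aut hH _
  obtain ⟨h1, h2⟩ := planch hu
  refine ⟨⟨?_, ?_⟩, fun v => ?_⟩
  · have := (memLp_two_iff_integrable_sq_norm h1.1).1 h1
    refine this.congr (ae_of_all _ fun z => ?_)
    simp only [hft, Complex.norm_real, Real.norm_eq_abs, sq_abs]
  · rw [show (∫ z, (∑ a ∈ S, ‖ft H (z - a)‖ ^ 2) ^ 2) = ∫ z, ‖ft (fun τ => aut H τ * P S τ) z‖ ^ 2 by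
      refine integral_congr_ae (ae_of_all _ fun z => ?_)
      simp only [hft, Complex.norm_real, Real.norm_eq_abs, sq_abs], h2]
    refine integral_congr_ae (ae_of_all _ fun z => ?_)
    simp only [norm_mul, mul_pow]
  · set c : E ι → ℂ := fun τ => ee ⟪-v, τ⟫_ℝ - 1 with hc
    have hcc : Continuous c := (continuous_ee.comp (by fun_prop)).sub continuous_const
    have hw : Bdd (fun τ => (aut H τ * P S τ) * c τ) := bdd_mul hu hcc (M := 2) fun x => by
      simp only [hc]
      refine (norm_sub_le _ _).trans ?_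
      rw [norm_ee, norm_one]
      norm_num
    have hftw : ∀ z, ft (fun τ => (aut H τ * P S τ) * c τ) z =
        ((∑ a ∈ S, ‖ft H (z + v - a)‖ ^ 2 - ∑ a ∈ S, ‖ft H (z - a)‖ ^ 2 : ℝ) : ℂ) := by
      intro z
      have e1 : ft (fun τ => (aut H τ * P S τ) * c τ) z =
          ft (fun τ => (aut H τ * P S τ) * ee ⟪-v, τ⟫_ℝ) z - ft (fun τ => aut H τ * P S τ) z := by
        unfold ft
        rw [← integral_sub]
        · refine integral_congr_ae (ae_of_all _ fun x => ?_)
          simp only [hc]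
          ring
        · exact integrable_mul_ee (bdd_integrable (bdd_mul hu (continuous_ee.comp (by fun_prop))
            (fun x => (norm_ee _).le))) z
        · exact integrable_mul_ee (bdd_integrable hu) z
      rw [e1, ft_mul_ee, hft, hft, sub_neg_eq_add, Complex.ofReal_sub]
    obtain ⟨-, h4⟩ := planch hw
    rw [show (∫ z, (∑ a ∈ S, ‖ft H (z + v - a)‖ ^ 2 - ∑ a ∈ S, ‖ft H (z - a)‖ ^ 2) ^ 2) =
      ∫ z, ‖ft (fun τ => (aut H τ * P S τ) * c τ) z‖ ^ 2 by
        refine integral_congr_ae (ae_of_all _ fun z => ?_)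
        simp only [hftw, Complex.norm_real, Real.norm_eq_abs, sq_abs], h4]
    refine integral_congr_ae (ae_of_all _ fun z => ?_)
    simp only [norm_mul, mul_pow, hc]
    have e5 : ‖ee ⟪-v, z⟫_ℝ - 1‖ = ‖ee ⟪v, z⟫_ℝ - 1‖ := by
      rw [inner_neg_left, ee_neg]
      rw [← RCLike.norm_conj (ee ⟪v, z⟫_ℝ - 1), map_sub, map_one]
    rw [e5]
    ring

end Pool.Agent.Helper47.SPX.PL
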