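import Pool.Agent.Helper47.SPX.Ft

/-!
# The theorem of Plancherel for bounded functions with bounded support
-/

set_option autoImplicit false

open MeasureTheory Filter Topology Set FourierTransform
open scoped InnerProductSpace ENNReal SchwartzMap ContDiff

namespace Pool.Agent.Helper47.SPX

open Pool.Agent.Helper64.SPX

variable {ι : Type} [Fintype ι]

theorem ft_eq_fourier (H : E ι → ℂ) : ft H = 𝓕 H := by
  funext z
  rw [Real.fourier_eq']
  unfold ft ee
  refine integral_congr_ae (ae_of_all _ fun x => ?_)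
  simp only [smul_eq_mul]
  rw [mul_comm, real_inner_comm]
  congr 2
  push_cast
  ring

theorem continuous_ft {H : E ι → ℂ} (hH : Integrable H) : Continuous (ft H) := by
  rw [ft_eq_fourier]
  exact VectorFourier.fourierIntegral_continuous Real.continuous_fourierChar
    (by exact continuous_inner) hH

theorem bdd_memLp {H : E ι → ℂ} (hH : Bdd H) : MemLp H 2 := by
  have hi := bdd_integrable hH
  obtain ⟨hm, ⟨C, hC⟩, ⟨r, hr⟩⟩ := hH
  rw [memLp_two_iff_integrable_sq_norm hm.aestronglyMeasurable]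
  refine Integrable.mono (hi.norm.const_mul C) (by fun_prop) (ae_of_all _ fun x => ?_)
  simp only [norm_pow, norm_norm, norm_mul]
  rw [sq]
  refine mul_le_mul_of_nonneg_right ?_ (norm_nonneg _)
  exact (hC x).trans (le_abs_self _)

/-- Plancherel for integrable functions in `L²` -/
theorem planch' {H : E ι → ℂ} (hi : Integrable H) (h2 : MemLp H 2) :
    MemLp (ft H) 2 ∧ ∫ z, ‖ft H z‖ ^ 2 = ∫ x, ‖H x‖ ^ 2 := by
  set f : Lp ℂ 2 (volume : Measure (E ι)) := h2.toLp H with hf
  set g : Lp ℂ 2 (volume : Measure (E ι)) := 𝓕 f with hg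
  have hfae : (f : E ι → ℂ) =ᵐ[volume] H := h2.coeFn_toLp
  have hgae : (g : E ι → ℂ) =ᵐ[volume] ft H := by
    refine ae_eq_of_integral_contDiff_smul_eq
      ((Lp.memLp g).locallyIntegrable (by norm_num)) (continuous_ft hi).locallyIntegrable ?_
    intro φ hφ hs
    set ψ : E ι → ℂ := fun x => (φ x : ℂ) with hψ
    have hψ1 : ContDiff ℝ ∞ ψ := Complex.ofRealCLM.contDiff.comp hφ
    have hψ2 : HasCompactSupport ψ := hs.comp_left (g := fun y : ℝ => (y : ℂ)) (by simp)
    set Ψ : 𝓢(E ι, ℂ) := hψ2.toSchwartzMap hψ1 with hΨ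
    have e0 : ∀ x, Ψ x = ψ x := fun x => rfl
    have e1 : ∫ x, φ x • (g : E ι → ℂ) x = ∫ x, Ψ x • (g : E ι → ℂ) x := by
      refine integral_congr_ae (ae_of_all _ fun x => ?_)
      simp only [e0, hψ, Complex.real_smul, smul_eq_mul]
    have e2 : ∫ x, Ψ x • (g : E ι → ℂ) x = Lp.toTemperedDistribution g Ψ :=
      (Lp.toTemperedDistribution_apply g Ψ).symm
    have e3 : Lp.toTemperedDistribution g Ψ = Lp.toTemperedDistribution f (𝓕 Ψ) := by
      rw [hg, ← Lp.fourier_toTemperedDistribution_eq]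
      rfl
    have e4 : Lp.toTemperedDistribution f (𝓕 Ψ) = ∫ x, (𝓕 Ψ : 𝓢(E ι, ℂ)) x • H x := by
      rw [Lp.toTemperedDistribution_apply]
      refine integral_congr_ae ?_
      filter_upwards [hfae] with x hx
      rw [hx]
    have e5 : ∫ x, (𝓕 Ψ : 𝓢(E ι, ℂ)) x • H x = ∫ x, ψ x • ft H x := by
      have := VectorFourier.integral_fourierIntegral_smul_eq_flip (L := innerₗ (E ι))
        (μ := volume) (ν := volume) Real.continuous_fourierChar
        (by exact continuous_inner) Ψ.integrable hi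
      rw [ft_eq_fourier]
      rw [flip_innerₗ] at this
      exact this
    rw [e1, e2, e3, e4, e5]
    refine integral_congr_ae (ae_of_all _ fun x => ?_)
    simp only [hψ, Complex.real_smul, smul_eq_mul]
  have hG : MemLp (ft H) 2 := (memLp_congr_ae hgae).1 (Lp.memLp g)
  refine ⟨hG, ?_⟩
  have hin : inner ℂ g g = inner ℂ f f := Lp.inner_fourier_eq f f
  rw [L2.inner_def, L2.inner_def] at hin
  have n1 : ∫ a, inner ℂ ((g : E ι → ℂ) a) ((g : E ι → ℂ) a) = ((∫ z, ‖ft H z‖ ^ 2 : ℝ) : ℂ) := by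
    rw [← integral_complex_ofReal]
    refine integral_congr_ae ?_
    filter_upwards [hgae] with x hx
    rw [hx, inner_self_eq_norm_sq_to_K]
    push_cast
    rfl
  have n2 : ∫ a, inner ℂ ((f : E ι → ℂ) a) ((f : E ι → ℂ) a) = ((∫ z, ‖H z‖ ^ 2 : ℝ) : ℂ) := by
    rw [← integral_complex_ofReal]
    refine integral_congr_ae ?_
    filter_upwards [hfae] with x hx
    rw [hx, inner_self_eq_norm_sq_to_K]
    push_cast
    rfl
  rw [n1, n2] at hin
  exact_mod_cast hin

theorem planch {H : E ι → ℂ} (hH : Bdd H) :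
    MemLp (ft H) 2 ∧ ∫ z, ‖ft H z‖ ^ 2 = ∫ x, ‖H x‖ ^ 2 :=
  planch' (bdd_integrable hH) (bdd_memLp hH)

end Pool.Agent.Helper47.SPX
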