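import Pool.Agent.Helper64.SPX.Spec

/-!
# SPLIT
-/

set_option autoImplicit false

open MeasureTheory Filter Topology Set
open scoped InnerProductSpace ENNReal

namespace Pool.Agent.Helper47.SPX.SPLIT

open Pool.Agent.Helper64.SPX

theorem main : S_SPLIT := by
  intro ι κ _ _
  refine ⟨((MeasurableEquiv.toLp 2 (ι ⊕ κ → ℝ)).symm.trans
    (MeasurableEquiv.sumPiEquivProdPi fun _ : ι ⊕ κ => ℝ)).trans
      ((MeasurableEquiv.toLp 2 (ι → ℝ)).prodCongr (MeasurableEquiv.toLp 2 (κ → ℝ))),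
    fun z => rfl, fun x y => ?_, ?_⟩
  · rfl
  · have h1 := EuclideanSpace.volume_preserving_symm_measurableEquiv_toLp (ι ⊕ κ)
    have h2 := volume_measurePreserving_sumPiEquivProdPi (fun _ : ι ⊕ κ => ℝ)
    have h3 := (PiLp.volume_preserving_toLp ι).prod (PiLp.volume_preserving_toLp κ)
    exact (h3.comp h2).comp h1

end Pool.Agent.Helper47.SPX.SPLIT
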